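import Mathlib

open Equiv Equiv.Perm Filter Topology Function

namespace Q17.SymTop

variable {α : Type*} {X Y : Type*}

theorem pinv_self (g : Perm α) (x : α) : g⁻¹ (g x) = x := g.symm_apply_apply x

theorem pself_inv (g : Perm α) (x : α) : g (g⁻¹ x) = x := g.apply_symm_apply x

/-- `g` fixes every point outside `S` -/
def SuppIn (g : Perm α) (S : Set α) : Prop := ∀ x, x ∉ S → g x = x

theorem SuppIn.mono {g : Perm α} {S T : Set α} (h : SuppIn g S) (hST : S ⊆ T) : SuppIn g T :=
  fun x hx => h x fun hx' => hx (hST hx')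

theorem SuppIn.inv {g : Perm α} {S : Set α} (h : SuppIn g S) : SuppIn g⁻¹ S := by
  intro x hx
  have := h x hx
  rw [Perm.inv_eq_iff_eq]
  exact this.symm

theorem SuppIn.mul {g h : Perm α} {S : Set α} (hg : SuppIn g S) (hh : SuppIn h S) :
    SuppIn (g * h) S := by
  intro x hx
  rw [Perm.mul_apply, hh x hx, hg x hx]

theorem SuppIn.mem {g : Perm α} {S : Set α} (h : SuppIn g S) {x : α} (hx : x ∈ S) : g x ∈ S := by
  by_contra hc
  have := h _ hc
  have := g.injective this
  rw [this] at hc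
  exact hc hx

/-- an injective map on `T` with co-infinite domain and image extends to a permutation -/
theorem exists_perm_of_injOn [Countable α] {T : Set α} {f : α → α} (hf : Set.InjOn f T)
    (h1 : Tᶜ.Infinite) (h2 : (f '' T)ᶜ.Infinite) : ∃ c : Perm α, ∀ x ∈ T, c x = f x := by
  classical
  have := h1.to_subtype
  have := h2.to_subtype
  obtain ⟨e⟩ := nonempty_equiv_of_countable (α := ↥(Tᶜ)) (β := ↥((f '' T)ᶜ))
  let e1 : T ≃ f '' T := Equiv.ofBijective (fun x => ⟨f x, Set.mem_image_of_mem f x.2⟩) (by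
    constructor
    · intro x y hxy
      exact Subtype.ext (hf x.2 y.2 (congrArg Subtype.val hxy))
    · rintro ⟨_, x, hx, rfl⟩
      exact ⟨⟨x, hx⟩, rfl⟩)
  refine ⟨(Equiv.Set.sumCompl T).symm.trans
    ((Equiv.sumCongr e1 e).trans (Equiv.Set.sumCompl (f '' T))), ?_⟩
  intro x hx
  simp only [Equiv.trans_apply]
  rw [Equiv.Set.sumCompl_symm_apply_of_mem hx]
  rfl

theorem exists_perm_comp [Countable α] {φ ψ : X → α} (hφ : Injective φ) (hψ : Injective ψ)
    (h1 : (Set.range φ)ᶜ.Infinite) (h2 : (Set.range ψ)ᶜ.Infinite) :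
    ∃ c : Perm α, ∀ t, c (φ t) = ψ t := by
  classical
  let f : α → α := Function.extend φ ψ id
  have hf : ∀ t, f (φ t) = ψ t := fun t => hφ.extend_apply ψ id t
  obtain ⟨c, hc⟩ := exists_perm_of_injOn (T := Set.range φ) (f := f) (by
      rintro _ ⟨x, rfl⟩ _ ⟨y, rfl⟩ hxy
      rw [hf, hf] at hxy
      rw [hψ hxy]) h1 (by
      have : f '' Set.range φ = Set.range ψ := by
        rw [← Set.range_comp]
        congr 1
        funext t
        exact hf t
      rw [this]
      exact h2)
  exact ⟨c, fun t => by rw [hc _ ⟨t, rfl⟩, hf]⟩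

/-- extension inside a set `W` -/
theorem exists_perm_suppIn [Countable α] {W T : Set α} {f : α → α} (hTW : T ⊆ W)
    (hf : Set.InjOn f T) (hfW : Set.MapsTo f T W)
    (h1 : (W \ T).Infinite) (h2 : (W \ f '' T).Infinite) :
    ∃ c : Perm α, SuppIn c W ∧ ∀ x ∈ T, c x = f x := by
  classical
  let f' : α → α := fun x => if x ∈ W then f x else x
  have hin : ∀ x ∈ T, f' x = f x := fun x hx => by simp [f', hTW hx]
  have hout : ∀ x, x ∉ W → f' x = x := fun x hx => by simp [f', hx]
  obtain ⟨c, hc⟩ := exists_perm_of_injOn (T := T ∪ Wᶜ) (f := f') (by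
      rintro x (hx | hx) y (hy | hy) hxy
      · rw [hin x hx, hin y hy] at hxy
        exact hf hx hy hxy
      · rw [hin x hx, hout y hy] at hxy
        exact absurd (hxy ▸ hfW hx) hy
      · rw [hout x hx, hin y hy] at hxy
        exact absurd (hxy ▸ hfW hy) hx
      · rwa [hout x hx, hout y hy] at hxy) (by
      refine h1.mono ?_
      rintro x ⟨hx, hx'⟩
      simp [hx, hx']) (by
      refine h2.mono ?_
      rintro x ⟨hx, hx'⟩
      rintro ⟨y, hy | hy, hyx⟩
      · rw [hin y hy] at hyx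
        exact hx' ⟨y, hy, hyx⟩
      · rw [hout y hy] at hyx
        exact hy (hyx ▸ hx))
  refine ⟨c, fun x hx => ?_, fun x hx => ?_⟩
  · rw [hc x (Or.inr hx), hout x hx]
  · rw [hc x (Or.inl hx), hin x hx]

/-- extension of a permutation along an embedding -/
noncomputable def via (θ : X ↪ α) (p : Perm X) : Perm α := p.viaEmbedding θ

@[simp] theorem via_apply (θ : X ↪ α) (p : Perm X) (x : X) : via θ p (θ x) = θ (p x) :=
  viaEmbedding_apply p θ x

theorem via_apply_not (θ : X ↪ α) (p : Perm X) {y : α} (h : y ∉ Set.range θ) : via θ p y = y :=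
  viaEmbedding_apply_of_notMem p θ y h

theorem via_unique (θ : X ↪ α) (p : Perm X) (g : Perm α) (h1 : ∀ x, g (θ x) = θ (p x))
    (h2 : ∀ y, y ∉ Set.range θ → g y = y) : g = via θ p := by
  ext y
  by_cases hy : y ∈ Set.range θ
  · obtain ⟨x, rfl⟩ := hy
    rw [h1, via_apply]
  · rw [h2 y hy, via_apply_not θ p hy]

theorem via_mul (θ : X ↪ α) (p q : Perm X) : via θ (p * q) = via θ p * via θ q :=
  map_mul (viaEmbeddingHom θ) p q

theorem via_inv (θ : X ↪ α) (p : Perm X) : via θ p⁻¹ = (via θ p)⁻¹ :=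
  map_inv (viaEmbeddingHom θ) p

theorem via_one (θ : X ↪ α) : via θ (1 : Perm X) = 1 :=
  map_one (viaEmbeddingHom θ)

theorem via_suppIn (θ : X ↪ α) (p : Perm X) : SuppIn (via θ p) (Set.range θ) :=
  fun _ hy => via_apply_not θ p hy

theorem conj_via (c : Perm α) (θ θ' : X ↪ α) (p : Perm X) (h : ∀ x, c (θ x) = θ' x) :
    c * via θ p * c⁻¹ = via θ' p := by
  apply via_unique
  · intro x
    rw [Perm.mul_apply, Perm.mul_apply, ← h x, pinv_self, via_apply, h]
  · intro y hy
    rw [Perm.mul_apply, Perm.mul_apply, via_apply_not, pself_inv]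
    rintro ⟨x, hx⟩
    apply hy
    refine ⟨x, ?_⟩
    rw [← h x, hx, pself_inv]

/-- a permutation supported in the range of an embedding comes from a permutation -/
theorem exists_via (θ : X ↪ α) (g : Perm α) (hg : SuppIn g (Set.range θ)) :
    ∃ p : Perm X, g = via θ p := by
  classical
  have h1 : ∀ x : X, ∃ y : X, θ y = g (θ x) := fun x => hg.mem ⟨x, rfl⟩
  have h2 : ∀ x : X, ∃ y : X, θ y = g⁻¹ (θ x) := fun x => hg.inv.mem ⟨x, rfl⟩
  choose u hu using h1
  choose v hv using h2
  refine ⟨⟨u, v, fun x => θ.injective ?_, fun x => θ.injective ?_⟩, ?_⟩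
  · rw [hv, hu, pinv_self]
  · rw [hu, hv, pself_inv]
  · apply via_unique
    · intro x
      exact (hu x).symm
    · exact hg

end Q17.SymTop
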