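import Pool.Agent.Q17.SymTop.Null

open Equiv Equiv.Perm Filter Topology Function

namespace Q17.SymTop

variable {α : Type*} {X Y Z : Type*}

/-- The group of finitary permutations (those moving only finitely many points). -/
def finitary (α : Type*) : Subgroup (Perm α) where
  carrier := {g | {x | g x ≠ x}.Finite}
  mul_mem' := by
    intro g h hg hh
    refine (Set.Finite.union hg hh).subset ?_
    intro x hx
    by_contra hc
    simp only [Set.mem_union, not_or, ne_eq, Set.mem_ofPred_eq, not_not] at hc hx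
    exact hx (by rw [Perm.mul_apply, hc.2, hc.1])
  one_mem' := by simp
  inv_mem' := by
    intro g hg
    refine Set.Finite.subset hg ?_
    intro x hx hx'
    apply hx
    rw [Perm.inv_eq_iff_eq]
    exact hx'.symm

/-- The group of finitary even permutations: the subgroup generated by the products of two
transpositions. -/
def evenFinitary (α : Type*) [DecidableEq α] : Subgroup (Perm α) :=
  Subgroup.closure {g | ∃ a b c d : α, a ≠ b ∧ c ≠ d ∧ g = swap a b * swap c d}

theorem mem_finitary {g : Perm α} : g ∈ finitary α ↔ {x | g x ≠ x}.Finite := Iff.rfl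

theorem swap_mem_finitary [DecidableEq α] (a b : α) : swap a b ∈ finitary α := by
  rw [mem_finitary]
  refine (Set.toFinite {a, b}).subset ?_
  intro x hx
  by_contra hc
  simp only [Set.mem_insert_iff, Set.mem_singleton_iff, not_or] at hc
  exact hx (swap_apply_of_ne_of_ne hc.1 hc.2)

theorem even_le_finitary [DecidableEq α] : evenFinitary α ≤ finitary α := by
  rw [evenFinitary, Subgroup.closure_le]
  rintro _ ⟨a, b, c, d, _, _, rfl⟩
  exact (finitary α).mul_mem (swap_mem_finitary a b) (swap_mem_finitary c d)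

theorem finitary_cases [DecidableEq α] {g : Perm α} (hg : g ∈ finitary α) :
    g ∈ evenFinitary α ∨ ∀ a b : α, a ≠ b → swap a b * g ∈ evenFinitary α := by
  have h1 : g ∈ Subgroup.closure {σ : Perm α | σ.IsSwap} := by
    rw [mem_closure_isSwap']
    refine Set.Finite.subset (mem_finitary.1 hg) ?_
    intro x hx
    simpa [MulAction.mem_fixedBy] using hx
  induction h1 using Subgroup.closure_induction_left with
  | one => exact Or.inl (one_mem _)
  | mul_left x hx y hy ih =>
    have hx' := hx
    obtain ⟨a, b, hab, rfl⟩ := hx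
    have hyf : y ∈ finitary α := by
      have := (finitary α).mul_mem (swap_mem_finitary a b) hg
      rwa [← mul_assoc, swap_mul_self, one_mul] at this
    rcases ih hyf with h | h
    · right
      intro c d hcd
      rw [← mul_assoc]
      exact (evenFinitary α).mul_mem (Subgroup.subset_closure ⟨c, d, a, b, hcd, hab, rfl⟩) h
    · exact Or.inl (h a b hab)
  | inv_mul_cancel x hx y hy ih =>
    obtain ⟨a, b, hab, rfl⟩ := hx
    rw [swap_inv] at hg ⊢
    have hyf : y ∈ finitary α := by
      have := (finitary α).mul_mem (swap_mem_finitary a b) hg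
      rwa [← mul_assoc, swap_mul_self, one_mul] at this
    rcases ih hyf with h | h
    · right
      intro c d hcd
      rw [← mul_assoc]
      exact (evenFinitary α).mul_mem (Subgroup.subset_closure ⟨c, d, a, b, hcd, hab, rfl⟩) h
    · exact Or.inl (h a b hab)

theorem inv_mul_mem_even [DecidableEq α] [Nontrivial α] {g h : Perm α} (hg : g ∈ finitary α)
    (hh : h ∈ finitary α) (hg' : g ∉ evenFinitary α) (hh' : h ∉ evenFinitary α) :
    h⁻¹ * g ∈ evenFinitary α := by
  obtain ⟨a, b, hab⟩ := exists_pair_ne α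
  have h1 := (finitary_cases hg).resolve_left hg' a b hab
  have h2 := (finitary_cases hh).resolve_left hh' a b hab
  have := (evenFinitary α).mul_mem ((evenFinitary α).inv_mem h2) h1
  rwa [mul_inv_rev, mul_assoc, swap_inv, ← mul_assoc (swap a b) (swap a b), swap_mul_self,
    one_mul] at this

variable [TopologicalSpace (Perm α)] [IsTopologicalGroup (Perm α)]

theorem vn_rot [Countable α] {h : ℕ → Perm α} (hh : Tendsto h atTop (𝓝 1)) (hne : ∀ n, h n ≠ 1)
    (hd : Pairwise (Perm.Disjoint on h)) : VN α (fun _ => finRotate 3) := by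
  have hmv : ∀ n, ∃ x, h n x ≠ x := by
    intro n
    by_contra hc
    push Not at hc
    exact hne n (Equiv.ext hc)
  choose mv hmv using hmv
  have uniq : ∀ i j p, h i p ≠ p → h j p ≠ p → i = j := by
    intro i j p hi hj
    by_contra hij
    rcases hd hij p with h1 | h1
    · exact hi h1
    · exact hj h1
  have mvinj : ∀ i j, mv i = mv j → i = j := by
    intro i j hij
    exact uniq i j (mv i) (hmv i) (by rw [hij]; exact hmv j)
  have fixmv : ∀ i j, i ≠ j → h i (mv j) = mv j := by
    intro i j hij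
    by_contra hc
    exact hij (uniq i j _ hc (hmv j))
  have hmv2 : ∀ i, h i (h i (mv i)) ≠ h i (mv i) := fun i hc => hmv i ((h i).injective hc)
  let tf : ℕ × Fin 3 → α := fun p =>
    match p.2 with
    | 0 => mv (3 * p.1)
    | 1 => h (3 * p.1) (mv (3 * p.1))
    | 2 => mv (3 * p.1 + 1)
  have t0 : ∀ n, tf (n, 0) = mv (3 * n) := fun n => rfl
  have t1 : ∀ n, tf (n, 1) = h (3 * n) (mv (3 * n)) := fun n => rfl
  have t2 : ∀ n, tf (n, 2) = mv (3 * n + 1) := fun n => rfl
  have tinj : Injective tf := by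
    rintro ⟨n, i⟩ ⟨m, j⟩ hij
    fin_cases i <;> fin_cases j <;> simp only [Fin.zero_eta, Fin.mk_one, Fin.reduceFinMk] at hij ⊢
    · rw [t0, t0] at hij
      have := mvinj _ _ hij
      have : n = m := by omega
      rw [this]
    · rw [t0, t1] at hij
      have h1 : 3 * n = 3 * m := uniq _ _ (mv (3 * n)) (hmv _) (by rw [hij]; exact hmv2 _)
      rw [h1] at hij
      exact absurd hij.symm (hmv _)
    · rw [t0, t2] at hij
      have := mvinj _ _ hij
      omega
    · rw [t0, t1] at hij
      have h1 : 3 * m = 3 * n := uniq _ _ (mv (3 * m)) (hmv _) (by rw [← hij]; exact hmv2 _)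
      rw [h1] at hij
      exact absurd hij (hmv _)
    · rw [t1, t1] at hij
      have h1 : 3 * n = 3 * m := uniq _ _ (h (3 * n) (mv (3 * n))) (hmv2 _)
        (by rw [hij]; exact hmv2 _)
      have : n = m := by omega
      rw [this]
    · rw [t1, t2] at hij
      have h1 : 3 * n = 3 * m + 1 := uniq _ _ (h (3 * n) (mv (3 * n))) (hmv2 _)
        (by rw [hij]; exact hmv _)
      omega
    · rw [t0, t2] at hij
      have := mvinj _ _ hij
      omega
    · rw [t1, t2] at hij
      have h1 : 3 * m = 3 * n + 1 := uniq _ _ (h (3 * m) (mv (3 * m))) (hmv2 _)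
        (by rw [← hij]; exact hmv _)
      omega
    · rw [t2, t2] at hij
      have := mvinj _ _ hij
      have : n = m := by omega
      rw [this]
  let θ : ℕ × Fin 3 ↪ α := ⟨tf, tinj⟩
  let β : ℕ × Bool ↪ α := ⟨fun p => if p.2 then mv (3 * p.1 + 1) else mv (3 * p.1), by
    rintro ⟨n, i⟩ ⟨m, j⟩ hij
    cases i <;> cases j <;> simp only [Bool.false_eq_true, if_true, if_false] at hij <;>
    have := mvinj _ _ hij
    · have : n = m := by omega
      rw [this]
    · omega
    · omega
    · have : n = m := by omega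
      rw [this]⟩
  let y : Perm α := via β (Equiv.prodCongr (Equiv.refl ℕ) Equiv.boolNot)
  have hy1 : ∀ n, y (mv (3 * n)) = mv (3 * n + 1) := fun n =>
    via_apply β (Equiv.prodCongr (Equiv.refl ℕ) Equiv.boolNot) (n, false)
  have hy2 : ∀ n, y (mv (3 * n + 1)) = mv (3 * n) := fun n =>
    via_apply β (Equiv.prodCongr (Equiv.refl ℕ) Equiv.boolNot) (n, true)
  have hy1' : ∀ n, y⁻¹ (mv (3 * n + 1)) = mv (3 * n) := fun n => by
    rw [← hy1, pinv_self]
  have hy2' : ∀ n, y⁻¹ (mv (3 * n)) = mv (3 * n + 1) := fun n => by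
    rw [← hy2, pinv_self]
  have hy3 : ∀ p, (∀ n, p ≠ mv (3 * n)) → (∀ n, p ≠ mv (3 * n + 1)) → y p = p := by
    intro p h1 h2
    apply via_apply_not
    rintro ⟨⟨n, i⟩, hn⟩
    cases i
    · exact h1 n hn.symm
    · exact h2 n hn.symm
  have hy3' : ∀ p, (∀ n, p ≠ mv (3 * n)) → (∀ n, p ≠ mv (3 * n + 1)) → y⁻¹ p = p := by
    intro p h1 h2
    rw [Perm.inv_eq_iff_eq]
    exact (hy3 p h1 h2).symm
  have hh3 : Tendsto (fun n => h (3 * n)) atTop (𝓝 1) :=
    hh.comp (tendsto_atTop_mono (fun n => (by omega : n ≤ 3 * n)) tendsto_id)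
  have hw := tendsto_comm hh3 y
  have fixinv : ∀ i j, i ≠ j → (h i)⁻¹ (mv j) = mv j := by
    intro i j hij
    rw [Perm.inv_eq_iff_eq]
    exact (fixmv i j hij).symm
  refine VN.of_exists θ ?_ (hw.congr fun n => ?_)
  · have hinj : Injective (fun n : ℕ => mv (3 * n + 2)) := fun m n hmn => by
      have := mvinj _ _ hmn
      omega
    refine (Set.infinite_range_of_injective hinj).mono ?_
    rintro _ ⟨n, rfl⟩ ⟨⟨m, i⟩, hm⟩
    change tf (m, i) = mv (3 * n + 2) at hm
    fin_cases i <;> simp only [Fin.zero_eta, Fin.mk_one, Fin.reduceFinMk] at hm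
    · rw [t0] at hm
      have := mvinj _ _ hm
      omega
    · rw [t1] at hm
      have h1 : 3 * m = 3 * n + 2 := uniq _ _ (h (3 * m) (mv (3 * m))) (hmv2 _)
        (by rw [hm]; exact hmv _)
      omega
    · rw [t2] at hm
      have := mvinj _ _ hm
      omega
  · apply via_unique
    · intro i
      simp only [Perm.mul_apply]
      fin_cases i
      · show h (3 * n) (y ((h (3 * n))⁻¹ (y⁻¹ (mv (3 * n))))) = h (3 * n) (mv (3 * n))
        rw [hy2', fixinv _ _ (by omega), hy2]
      · show h (3 * n) (y ((h (3 * n))⁻¹ (y⁻¹ (h (3 * n) (mv (3 * n)))))) = mv (3 * n + 1)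
        rw [hy3' (h (3 * n) (mv (3 * n))), pinv_self, hy1, fixmv _ _ (by omega)]
        · intro m hm
          have h1 : 3 * n = 3 * m := uniq _ _ (h (3 * n) (mv (3 * n))) (hmv2 _)
            (by rw [hm]; exact hmv _)
          rw [h1] at hm
          exact hmv _ hm
        · intro m hm
          have h1 : 3 * n = 3 * m + 1 := uniq _ _ (h (3 * n) (mv (3 * n))) (hmv2 _)
            (by rw [hm]; exact hmv _)
          omega
      · show h (3 * n) (y ((h (3 * n))⁻¹ (y⁻¹ (mv (3 * n + 1))))) = mv (3 * n)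
        rw [hy1', hy3 ((h (3 * n))⁻¹ (mv (3 * n))), pself_inv]
        · intro m hm
          have h2 : h (3 * n) (mv (3 * m)) = mv (3 * n) := by rw [← hm, pself_inv]
          by_cases hnm : n = m
          · subst hnm
            exact hmv _ h2
          · rw [fixmv _ _ (by omega)] at h2
            have := mvinj _ _ h2
            omega
        · intro m hm
          have h2 : h (3 * n) (mv (3 * m + 1)) = mv (3 * n) := by rw [← hm, pself_inv]
          rw [fixmv _ _ (by omega)] at h2
          have := mvinj _ _ h2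
          omega
    · intro p hp
      have p0 : p ≠ mv (3 * n) := fun hc => hp ⟨0, hc.symm⟩
      have p1 : p ≠ h (3 * n) (mv (3 * n)) := fun hc => hp ⟨1, hc.symm⟩
      have p2 : p ≠ mv (3 * n + 1) := fun hc => hp ⟨2, hc.symm⟩
      simp only [Perm.mul_apply]
      by_cases c1 : ∃ m, p = mv (3 * m)
      · obtain ⟨m, rfl⟩ := c1
        have hmn : m ≠ n := fun hc => p0 (by rw [hc])
        rw [hy2', fixinv _ _ (by omega), hy2, fixmv _ _ (by omega)]
      by_cases c2 : ∃ m, p = mv (3 * m + 1)
      · obtain ⟨m, rfl⟩ := c2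
        have hmn : m ≠ n := fun hc => p2 (by rw [hc])
        rw [hy1', fixinv _ _ (by omega), hy1, fixmv _ _ (by omega)]
      push Not at c1 c2
      rw [hy3' p c1 c2, hy3, pself_inv]
      · intro m hm
        have h2 : h (3 * n) (mv (3 * m)) = p := by rw [← hm, pself_inv]
        by_cases hnm : n = m
        · subst hnm
          exact p1 h2.symm
        · rw [fixmv _ _ (by omega)] at h2
          exact c1 m h2.symm
      · intro m hm
        have h2 : h (3 * n) (mv (3 * m + 1)) = p := by rw [← hm, pself_inv]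
        rw [fixmv _ _ (by omega)] at h2
        exact c2 m h2.symm

theorem vn_even_of_rot [DecidableEq α] (hr : VN α (fun _ => finRotate 3)) {g : Perm α}
    (hg : g ∈ evenFinitary α) : VN α (fun _ => g) := by
  have h3 : ∀ a b c : α, a ≠ b → b ≠ c → VN α (fun _ => swap a b * swap b c) := by
    intro a b c hab hbc
    by_cases hac : a = c
    · subst hac
      have : (fun _ : ℕ => swap a b * swap b a) = fun _ => (1 : Perm α) := by
        funext _
        rw [swap_comm b a, swap_mul_self]
      rw [this]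
      exact VN.one
    · let ι : Fin 3 ↪ α := ⟨![a, b, c], by
        intro i j hij
        fin_cases i <;> fin_cases j <;> simp_all [eq_comm]⟩
      have h1 : swap a b * swap b c = via ι (finRotate 3) := by
        apply via_unique
        · intro i
          rw [Perm.mul_apply]
          fin_cases i
          · show swap a b (swap b c a) = b
            rw [swap_apply_of_ne_of_ne hab hac, swap_apply_left]
          · show swap a b (swap b c b) = c
            rw [swap_apply_left, swap_apply_of_ne_of_ne (Ne.symm hac) hbc.symm]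
          · show swap a b (swap b c c) = a
            rw [swap_apply_right, swap_apply_right]
        · intro y hy
          have ya : y ≠ a := fun hc => hy ⟨0, hc.symm⟩
          have yb : y ≠ b := fun hc => hy ⟨1, hc.symm⟩
          have yc : y ≠ c := fun hc => hy ⟨2, hc.symm⟩
          rw [Perm.mul_apply, swap_apply_of_ne_of_ne yb yc, swap_apply_of_ne_of_ne ya yb]
      rw [h1]
      exact hr.via ι
  induction hg using Subgroup.closure_induction with
  | mem x hx =>
    obtain ⟨a, b, c, d, hab, hcd, rfl⟩ := hx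
    by_cases hbc : b = c
    · subst hbc
      exact h3 a b d hab hcd
    · have := (h3 a b c hab hbc).mul (h3 b c d hbc hcd)
      convert this using 2
      rw [mul_assoc, ← mul_assoc (swap b c), swap_mul_self, one_mul]
  | one => exact VN.one
  | mul x y _ _ hx hy => exact hx.mul hy
  | inv x _ hx => exact hx.inv

/-- If all constant block sequences of elements `g n` are null, then the sequence `g n` is null,
provided the supports are disjoint with co-infinite union. -/
theorem tendsto_of_vn [Countable α] [Infinite α] [(𝓝 (1 : Perm α)).IsCountablyGenerated]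
    {g : ℕ → Perm α} (hd : Pairwise (Perm.Disjoint on g)) (hco : {x | ∀ n, g n x = x}.Infinite)
    (hvn : ∀ n, VN α (fun _ => g n)) : Tendsto g atTop (𝓝 1) := by
  classical
  obtain ⟨U, hU⟩ := (𝓝 (1 : Perm α)).exists_antitone_basis
  obtain ⟨H, hH⟩ := exists_coinf (Y := ℕ × (ℕ × α)) (α := α)
  have hsec : ∀ n, (Set.range (sec H n))ᶜ.Infinite := by
    intro n
    refine hH.mono ?_
    rintro x hx ⟨y, hy⟩
    exact hx ⟨(n, y), hy⟩
  have h1 : ∀ n, ∃ k, via (sec (sec H n) k) (g n) ∈ U n := by
    intro n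
    exact ((hvn n (sec H n) (hsec n)).eventually (hU.mem n)).exists
  choose k hk using h1
  have h2 : Tendsto (fun n => via (sec (sec H n) (k n)) (g n)) atTop (𝓝 1) := hU.tendsto hk
  let T := {p : ℕ × α // g p.1 p.2 ≠ p.2}
  let φ : T → α := fun t => H (t.1.1, (k t.1.1, t.1.2))
  let ψ : T → α := fun t => t.1.2
  have hφ : Injective φ := by
    rintro ⟨⟨n, x⟩, hx⟩ ⟨⟨m, y⟩, hy⟩ h
    have := H.injective h
    simp only [Prod.mk.injEq] at this
    obtain ⟨rfl, _, rfl⟩ := this
    rfl
  have hψ : Injective ψ := by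
    rintro ⟨⟨n, x⟩, hx⟩ ⟨⟨m, y⟩, hy⟩ h
    change x = y at h
    subst h
    have : n = m := by
      by_contra hnm
      rcases hd hnm x with h | h
      · exact hx h
      · exact hy h
    subst this
    rfl
  obtain ⟨c, hc⟩ := exists_perm_comp hφ hψ (by
    refine hH.mono ?_
    rintro x hx ⟨y, hy⟩
    exact hx ⟨_, hy⟩) (by
    refine hco.mono ?_
    rintro x hx ⟨⟨⟨n, y⟩, hy⟩, hxy⟩
    change y = x at hxy
    subst hxy
    exact hy (hx n))
  refine (tendsto_conj h2 c).congr fun n => ?_
  ext y
  rw [Perm.mul_apply, Perm.mul_apply]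
  by_cases hy : g n y = y
  · rw [hy]
    have : via (sec (sec H n) (k n)) (g n) (c⁻¹ y) = c⁻¹ y := by
      by_cases hr : c⁻¹ y ∈ Set.range (sec (sec H n) (k n))
      · obtain ⟨z, hz⟩ := hr
        rw [← hz, via_apply]
        by_cases hgz : g n z = z
        · rw [hgz]
        · exfalso
          have h3 : c (φ ⟨(n, z), hgz⟩) = z := hc _
          change c (sec (sec H n) (k n) z) = z at h3
          rw [hz, pself_inv] at h3
          rw [h3] at hy
          exact hgz hy
      · exact via_apply_not _ _ hr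
    rw [this, pself_inv]
  · have h3 : c (φ ⟨(n, y), hy⟩) = y := hc _
    have h4 : c⁻¹ y = φ ⟨(n, y), hy⟩ := by
      rw [Perm.inv_eq_iff_eq]
      exact h3.symm
    have hy' : g n (g n y) ≠ g n y := fun hc => hy ((g n).injective hc)
    rw [h4]
    change c (via (sec (sec H n) (k n)) (g n) (sec (sec H n) (k n) y)) = _
    rw [via_apply]
    exact hc ⟨(n, g n y), hy'⟩

omit [TopologicalSpace (Perm α)] [IsTopologicalGroup (Perm α)] in
/-- pairwise disjointness leaves room in a subsequence -/
theorem coinf_even {f : ℕ → Perm α} (hd : Pairwise (Perm.Disjoint on f)) (hne : ∀ n, f n ≠ 1) :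
    {x | ∀ n, f (2 * n) x = x}.Infinite := by
  have hmv : ∀ n, ∃ x, f n x ≠ x := by
    intro n
    by_contra hc
    push Not at hc
    exact hne n (Equiv.ext hc)
  choose mv hmv using hmv
  have uniq : ∀ i j p, f i p ≠ p → f j p ≠ p → i = j := by
    intro i j p hi hj
    by_contra hij
    rcases hd hij p with h1 | h1
    · exact hi h1
    · exact hj h1
  have hinj : Injective (fun n : ℕ => mv (2 * n + 1)) := fun m n hmn => by
    have := uniq _ _ (mv (2 * m + 1)) (hmv _) (by
      change mv (2 * m + 1) = mv (2 * n + 1) at hmn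
      rw [hmn]; exact hmv _)
    omega
  refine (Set.infinite_range_of_injective hinj).mono ?_
  rintro _ ⟨m, rfl⟩ n
  by_contra hc
  have := uniq _ _ _ (hmv (2 * m + 1)) hc
  omega

omit [TopologicalSpace (Perm α)] [IsTopologicalGroup (Perm α)] in
theorem pairwise_even {f : ℕ → Perm α} (hd : Pairwise (Perm.Disjoint on f)) :
    Pairwise (Perm.Disjoint on (fun n => f (2 * n))) := by
  intro m n hmn
  exact hd (show (2 * m : ℕ) ≠ 2 * n by omega)

theorem even_small [DecidableEq α] [Countable α] [Infinite α]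
    [(𝓝 (1 : Perm α)).IsCountablyGenerated]
    (hr : VN α (fun _ => finRotate 3)) {U : Set (Perm α)} (hU : U ∈ 𝓝 (1 : Perm α)) :
    ∃ F : Finset α, ∀ g ∈ evenFinitary α, (∀ x ∈ F, g x = x) → g ∈ U := by
  by_contra hcon
  push Not at hcon
  have : Std.Symm (Perm.Disjoint : Perm α → Perm α → Prop) := ⟨fun _ _ h => h.symm⟩
  obtain ⟨f, hf, hd⟩ := exists_seq_of_forall_finset_exists'
    (fun g : Perm α => g ∈ evenFinitary α ∧ g ∉ U) Perm.Disjoint (by
      intro s hs
      have hfin : (⋃ g ∈ s, {x | g x ≠ x}).Finite := by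
        refine Set.Finite.biUnion s.finite_toSet fun g hg => ?_
        exact even_le_finitary (hs g hg).1
      obtain ⟨g, hg1, hg2, hg3⟩ := hcon hfin.toFinset
      refine ⟨g, ⟨hg1, hg3⟩, fun h hh x => ?_⟩
      by_cases hx : h x = x
      · exact Or.inl hx
      · right
        apply hg2
        rw [Set.Finite.mem_toFinset]
        exact Set.mem_biUnion hh hx)
  have hne : ∀ n, f n ≠ 1 := by
    intro n hn
    exact (hf n).2 (by rw [hn]; exact mem_of_mem_nhds hU)
  have ht := tendsto_of_vn (g := fun n => f (2 * n)) (pairwise_even hd) (coinf_even hd hne)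
    (fun n => vn_even_of_rot hr (hf (2 * n)).1)
  obtain ⟨n, hn⟩ := (ht.eventually hU).exists
  exact (hf (2 * n)).2 hn

/-- Case A: the finitary group is open and the topology is not discrete. -/
theorem caseA [DecidableEq α] [Countable α] [Infinite α] [T2Space (Perm α)]
    [(𝓝 (1 : Perm α)).IsCountablyGenerated]
    (hc : (finitary α : Set (Perm α)) ∈ 𝓝 (1 : Perm α))
    (hnd : ∀ V ∈ 𝓝 (1 : Perm α), ∃ g ∈ V, g ≠ 1) :
    ((evenFinitary α : Set (Perm α)) ∈ 𝓝 (1 : Perm α) ∧
      ∀ U ∈ 𝓝 (1 : Perm α), ∃ F : Finset α, ∀ g ∈ evenFinitary α, (∀ x ∈ F, g x = x) → g ∈ U) ∨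
    (∀ U ∈ 𝓝 (1 : Perm α), ∃ F : Finset α, ∀ g ∈ finitary α, (∀ x ∈ F, g x = x) → g ∈ U) := by
  obtain ⟨U, hU⟩ := (𝓝 (1 : Perm α)).exists_antitone_basis
  obtain ⟨f, hf, hd⟩ := exists_seq_of_forall_finset_exists
    (fun p : ℕ × Perm α => p.2 ∈ U p.1 ∧ p.2 ≠ 1 ∧ p.2 ∈ finitary α)
    (fun p q : ℕ × Perm α => p.1 < q.1 ∧ Perm.Disjoint p.2 q.2) (by
      intro s hs
      have hfin : (⋃ p ∈ s, {x | p.2 x ≠ x}).Finite :=
        Set.Finite.biUnion s.finite_toSet fun g hg => (hs g hg).2.2
      let N := s.sup Prod.fst + 1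
      have hmem : U N ∩ (finitary α : Set (Perm α)) ∩ {g | ∀ x ∈ hfin.toFinset, g x = x} ∈
          𝓝 (1 : Perm α) := inter_mem (inter_mem (hU.mem N) hc) (stabF_mem_nhds _)
      obtain ⟨g, ⟨⟨hg1, hg2⟩, hg3⟩, hg4⟩ := hnd _ hmem
      refine ⟨(N, g), ⟨hg1, hg4, hg2⟩, fun p hp => ⟨?_, fun x => ?_⟩⟩
      · have := Finset.le_sup (f := Prod.fst) hp
        exact Nat.lt_succ_of_le this
      · by_cases hx : p.2 x = x
        · exact Or.inl hx
        · right
          apply hg3
          rw [Set.Finite.mem_toFinset]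
          exact Set.mem_biUnion hp hx)
  have hmono : StrictMono (fun n => (f n).1) := fun m n hmn => (hd m n hmn).1
  have hpw : Pairwise (Perm.Disjoint on (fun n => (f n).2)) := by
    intro m n hmn
    rcases lt_or_gt_of_ne hmn with h | h
    · exact (hd m n h).2
    · exact (hd n m h).2.symm
  have ht : Tendsto (fun n => (f n).2) atTop (𝓝 1) :=
    hU.tendsto fun n => hU.antitone (hmono.id_le n) (hf n).1
  have hr := vn_rot ht (fun n => (hf n).2.1) hpw
  by_cases he : (evenFinitary α : Set (Perm α)) ∈ 𝓝 (1 : Perm α)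
  · exact Or.inl ⟨he, fun U hU => even_small hr hU⟩
  right
  intro W hW
  obtain ⟨V, hV, hVW⟩ := exists_nhds_one_split hW
  obtain ⟨F, hF⟩ := even_small hr hV
  refine ⟨F, fun g hg hgF => ?_⟩
  have h1 : V ∩ {g : Perm α | ∀ x ∈ F, g x = x} ∩ (finitary α : Set (Perm α)) ∈ 𝓝 (1 : Perm α) :=
    inter_mem (inter_mem hV (stabF_mem_nhds F)) hc
  have h2 : ∃ h ∈ V ∩ {g : Perm α | ∀ x ∈ F, g x = x} ∩ (finitary α : Set (Perm α)),
      h ∉ evenFinitary α := by
    by_contra hcon
    push Not at hcon
    exact he (mem_of_superset h1 hcon)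
  obtain ⟨h, ⟨⟨hhV, hhF⟩, hhc⟩, hho⟩ := h2
  by_cases hge : g ∈ evenFinitary α
  · have := hVW 1 (mem_of_mem_nhds hV) g (hF g hge hgF)
    rwa [one_mul] at this
  · have h3 := inv_mul_mem_even hg hhc hge hho
    have h4 : h⁻¹ * g ∈ V := hF _ h3 fun x hx => by
      rw [Perm.mul_apply, hgF x hx, Perm.inv_eq_iff_eq]
      exact (hhF x hx).symm
    have := hVW h hhV _ h4
    rwa [mul_inv_cancel_left] at this

end Q17.SymTop
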