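import Pool.Agent.Q17.SymTop.Dec

open Equiv Equiv.Perm Filter Topology Function

namespace Q17.SymTop

variable {α : Type*} {X Y Z : Type*}

/-- greedy sequence -/
noncomputable def greedySeq (E : ℕ → Set α) (O : α → Set α) (hE : ∀ n, (E n).Infinite)
    (hO : ∀ p, (O p).Finite) : ℕ → α
  | n => Classical.choose (((hE n).sdiff
      (Set.finite_iUnion (fun m : Fin n => hO (greedySeq E O hE hO m.1)))).nonempty)
termination_by n => n
decreasing_by all_goals exact Fin.isLt _

theorem greedy (E : ℕ → Set α) (O : α → Set α) (hE : ∀ n, (E n).Infinite)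
    (hO : ∀ p, (O p).Finite) :
    ∃ s : ℕ → α, (∀ n, s n ∈ E n) ∧ ∀ m n, m < n → s n ∉ O (s m) := by
  have key : ∀ n, greedySeq E O hE hO n ∈ E n \ ⋃ m : Fin n, O (greedySeq E O hE hO m.1) := by
    intro n
    rw [greedySeq]
    exact Classical.choose_spec (((hE n).sdiff
      (Set.finite_iUnion (fun m : Fin n => hO (greedySeq E O hE hO m.1)))).nonempty)
  refine ⟨greedySeq E O hE hO, fun n => (key n).1, fun m n hmn h => ?_⟩
  apply (key n).2
  rw [Set.mem_iUnion]
  exact ⟨⟨m, hmn⟩, h⟩

/-- the flip of `I × Bool` -/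
def flipI (I : Type*) : Perm (I × Bool) := Equiv.prodCongr (Equiv.refl I) Equiv.boolNot

@[simp] theorem flipI_apply {I : Type*} (i : I) (b : Bool) : flipI I (i, b) = (i, !b) := rfl

variable [TopologicalSpace (Perm α)] [IsTopologicalGroup (Perm α)]

/-- Step 1: flips on disjoint infinite blocks form a null sequence. -/
theorem vn_flip [Countable α] [Infinite α] [T2Space (Perm α)]
    [(𝓝 (1 : Perm α)).IsCountablyGenerated] {h : ℕ → Perm α} (hh : Tendsto h atTop (𝓝 1))
    (hinf : ∀ n, {x | h n x ≠ x}.Infinite) : VN α (fun _ => flipI (ℕ × Bool)) := by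
  classical
  obtain ⟨U, hU⟩ := (𝓝 (1 : Perm α)).exists_antitone_basis
  let O : α → Set α := fun p => {q | q = p ∨ ∃ j, q = h j p ∨ q = (h j)⁻¹ p}
  have Oself : ∀ p, p ∈ O p := fun p => Or.inl rfl
  have Oh : ∀ j p, h j p ∈ O p := fun j p => Or.inr ⟨j, Or.inl rfl⟩
  have Ohi : ∀ j p, (h j)⁻¹ p ∈ O p := fun j p => Or.inr ⟨j, Or.inr rfl⟩
  have Osymm : ∀ p q, q ∈ O p → p ∈ O q := by
    rintro p q (rfl | ⟨j, rfl | rfl⟩)
    · exact Or.inl rfl
    · exact Or.inr ⟨j, Or.inr (pinv_self _ _).symm⟩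
    · exact Or.inr ⟨j, Or.inl (pself_inv _ _).symm⟩
  have Ofin : ∀ p, (O p).Finite := by
    intro p
    obtain ⟨N, hN⟩ := eventually_atTop.1 (eventually_fix hh p)
    have h1 : (⋃ j : Fin N, ({h j p, (h j)⁻¹ p} : Set α)).Finite :=
      Set.finite_iUnion fun j => Set.toFinite _
    refine ((Set.finite_singleton p).union h1).subset ?_
    rintro q (rfl | ⟨j, hq⟩)
    · exact Or.inl rfl
    · by_cases hj : j < N
      · right
        rw [Set.mem_iUnion]
        exact ⟨⟨j, hj⟩, hq⟩
      · left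
        have h2 := hN j (not_lt.1 hj)
        rcases hq with rfl | rfl
        · exact h2
        · show (h j)⁻¹ p = p
          rw [Perm.inv_eq_iff_eq]
          exact h2.symm
  let O2 : α → Set α := fun p => {q | ∃ r ∈ O p, r ∈ O q}
  have O2fin : ∀ p, (O2 p).Finite := by
    intro p
    refine ((Ofin p).biUnion fun r _ => Ofin r).subset ?_
    rintro q ⟨r, hr, hrq⟩
    exact Set.mem_biUnion hr (Osymm _ _ hrq)
  let I := ℕ × ℕ × ℕ × Bool × Bool
  obtain ⟨e⟩ := nonempty_equiv_of_countable (α := I) (β := ℕ)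
  obtain ⟨s', hs1, hs2⟩ := greedy (fun m => {x | h (e.symm m).2.1 x ≠ x}) O2
    (fun m => hinf _) O2fin
  let s : I → α := fun i => s' (e i)
  have S1 : ∀ i : I, h i.2.1 (s i) ≠ s i := by
    intro i
    have := hs1 (e i)
    simpa using this
  have S2 : ∀ i i' : I, ∀ r, r ∈ O (s i) → r ∈ O (s i') → i = i' := by
    intro i i' r hr hr'
    by_contra hii
    have : e i ≠ e i' := fun hc => hii (e.injective hc)
    rcases lt_or_gt_of_ne this with hlt | hlt
    · exact hs2 _ _ hlt ⟨r, hr, hr'⟩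
    · exact hs2 _ _ hlt ⟨r, hr', hr⟩
  have sinj : Injective s := fun i i' hii => S2 i i' (s i) (Oself _) (by rw [hii]; exact Oself _)
  let sE : I ↪ α := ⟨s, sinj⟩
  -- the permutations y_k
  let yb : ℕ → Perm I := fun k => Function.Involutive.toPerm
    (fun i : I => if i.1 = k then (i.1, i.2.1, i.2.2.1, !i.2.2.2.1, i.2.2.2.2) else i) (by
      rintro ⟨k', j, n, b, c⟩
      by_cases hk : k' = k
      · simp [hk]
      · simp [hk])
  have yb1 : ∀ k j n b c, yb k (k, j, n, b, c) = (k, j, n, !b, c) := by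
    intro k j n b c
    show (if k = k then _ else _) = _
    rw [if_pos rfl]
  have yb2 : ∀ k (i : I), i.1 ≠ k → yb k i = i := by
    intro k i hi
    show (if i.1 = k then _ else _) = _
    rw [if_neg hi]
  have hJ : ∀ k, ∃ j, h j * via sE (yb k) * (h j)⁻¹ * (via sE (yb k))⁻¹ ∈ U k := by
    intro k
    exact ((tendsto_comm hh (via sE (yb k))).eventually (hU.mem k)).exists
  choose J hJ using hJ
  let x : ℕ → Perm α := fun k => h (J k) * via sE (yb k) * (h (J k))⁻¹ * (via sE (yb k))⁻¹
  have hx : Tendsto x atTop (𝓝 1) := hU.tendsto hJ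
  have vyinv : ∀ k i, (via sE (yb k))⁻¹ (s (yb k i)) = s i := by
    intro k i
    rw [Perm.inv_eq_iff_eq]
    exact (via_apply sE (yb k) i).symm
  have F1 : ∀ k n b c, x k (s (k, J k, n, b, c)) = s (k, J k, n, !b, c) := by
    intro k n b c
    have e1 : (via sE (yb k))⁻¹ (s (k, J k, n, b, c)) = s (k, J k, n, !b, c) := by
      have := vyinv k (k, J k, n, !b, c)
      rw [yb1] at this
      simpa using this
    show h (J k) (via sE (yb k) ((h (J k))⁻¹ ((via sE (yb k))⁻¹ (s (k, J k, n, b, c))))) = _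
    rw [e1, via_apply_not, pself_inv]
    rintro ⟨i, hi⟩
    change s i = _ at hi
    have h1 : s i ∈ O (s (k, J k, n, !b, c)) := by
      rw [hi]
      exact Ohi _ _
    have h2 := S2 _ _ _ (Oself (s i)) h1
    subst h2
    have h3 := S1 (k, J k, n, !b, c)
    apply h3
    have h4 := congrArg (h (J k)) hi
    rw [pself_inv] at h4
    exact h4
  have F2 : ∀ k p, (∀ i : I, i.1 = k → p ∉ O (s i)) → x k p = p := by
    intro k p hp
    have e1 : (via sE (yb k)) p = p := by
      by_cases hr : p ∈ Set.range sE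
      · obtain ⟨i, rfl⟩ := hr
        rw [via_apply]
        by_cases hi : i.1 = k
        · exact absurd (Oself _) (hp i hi)
        · rw [yb2 k i hi]
      · exact via_apply_not _ _ hr
    have e1' : (via sE (yb k))⁻¹ p = p := by
      rw [Perm.inv_eq_iff_eq]
      exact e1.symm
    have e2 : (via sE (yb k)) ((h (J k))⁻¹ p) = (h (J k))⁻¹ p := by
      by_cases hr : (h (J k))⁻¹ p ∈ Set.range sE
      · obtain ⟨i, hi⟩ := hr
        rw [← hi, via_apply]
        by_cases hik : i.1 = k
        · exfalso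
          apply hp i hik
          have : p = h (J k) (s i) := by
            change s i = _ at hi
            rw [hi, pself_inv]
          rw [this]
          exact Oh _ _
        · rw [yb2 k i hik]
      · exact via_apply_not _ _ hr
    show h (J k) (via sE (yb k) ((h (J k))⁻¹ ((via sE (yb k))⁻¹ p))) = p
    rw [e1', e2, pself_inv]
  have F2' : ∀ k (i : I), i.1 ≠ k → x k (s i) = s i := by
    intro k i hi
    apply F2
    intro i' hi' hmem
    have := S2 i i' _ (Oself _) hmem
    subst this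
    exact hi hi'
  have F1' : ∀ k n b c, (x k)⁻¹ (s (k, J k, n, b, c)) = s (k, J k, n, !b, c) := by
    intro k n b c
    rw [Perm.inv_eq_iff_eq, F1, Bool.not_not]
  have F2'' : ∀ k (i : I), i.1 ≠ k → (x k)⁻¹ (s i) = s i := by
    intro k i hi
    rw [Perm.inv_eq_iff_eq, F2' k i hi]
  -- the permutation y
  let yc : Perm I := Function.Involutive.toPerm
    (fun i : I => if i.2.1 = J i.1 ∧ i.2.2.2.1 = false then
      (i.1, i.2.1, i.2.2.1, i.2.2.2.1, !i.2.2.2.2) else i) (by
      rintro ⟨k', j, n, b, c⟩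
      by_cases hk : j = J k' ∧ b = false
      · simp [hk]
      · simp [hk])
  have yc1 : ∀ k n c, yc (k, J k, n, false, c) = (k, J k, n, false, !c) := by
    intro k n c
    show (if J k = J k ∧ false = false then _ else _) = _
    rw [if_pos ⟨rfl, rfl⟩]
  have yc2 : ∀ i : I, ¬ (i.2.1 = J i.1 ∧ i.2.2.2.1 = false) → yc i = i := by
    intro i hi
    show (if i.2.1 = J i.1 ∧ i.2.2.2.1 = false then _ else _) = _
    rw [if_neg hi]
  let y : Perm α := via sE yc
  have Y1 : ∀ k n c, y (s (k, J k, n, false, c)) = s (k, J k, n, false, !c) := by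
    intro k n c
    have := via_apply sE yc (k, J k, n, false, c)
    rw [yc1] at this
    exact this
  have Y1' : ∀ k n c, y⁻¹ (s (k, J k, n, false, c)) = s (k, J k, n, false, !c) := by
    intro k n c
    rw [Perm.inv_eq_iff_eq, Y1, Bool.not_not]
  have Y2 : ∀ p, (∀ l n c, p ≠ s (l, J l, n, false, c)) → y p = p := by
    intro p hp
    by_cases hr : p ∈ Set.range sE
    · obtain ⟨⟨l, j, n, b, c⟩, rfl⟩ := hr
      show via sE yc _ = _
      rw [via_apply, yc2]
      rintro ⟨h1, h2⟩
      simp only at h1 h2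
      subst h1 h2
      exact hp l n c rfl
    · exact via_apply_not _ _ hr
  have Y2' : ∀ p, (∀ l n c, p ≠ s (l, J l, n, false, c)) → y⁻¹ p = p := by
    intro p hp
    rw [Perm.inv_eq_iff_eq]
    exact (Y2 p hp).symm
  have hw := tendsto_comm hx y
  let θ : ℕ × ((ℕ × Bool) × Bool) ↪ α := ⟨fun p => s (p.1, J p.1, p.2.1.1, p.2.1.2, p.2.2), by
    rintro ⟨k, ⟨n, b⟩, c⟩ ⟨k', ⟨n', b'⟩, c'⟩ hkk
    have : ((k, J k, n, b, c) : ℕ × ℕ × ℕ × Bool × Bool) = (k', J k', n', b', c') := sinj hkk
    simp only [Prod.mk.injEq] at this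
    obtain ⟨rfl, _, rfl, rfl, rfl⟩ := this
    rfl⟩
  have tne : ∀ l n c l' j' n' c', s (l, j', n, true, c) ≠ s (l', J l', n', false, c') := by
    intro l n c l' j' n' c' hc
    have : ((l, j', n, true, c) : ℕ × ℕ × ℕ × Bool × Bool) = (l', J l', n', false, c') := sinj hc
    simp only [Prod.mk.injEq] at this
    exact absurd this.2.2.2.1 (by decide)
  refine VN.of_exists θ ?_ (hw.congr fun k => ?_)
  · have hinj : Injective (fun n : ℕ => s (n, J n + 1, 0, false, false)) := fun m n hmn => by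
      have : ((m, J m + 1, 0, false, false) : ℕ × ℕ × ℕ × Bool × Bool) =
        (n, J n + 1, 0, false, false) := sinj hmn
      simp only [Prod.mk.injEq] at this
      exact this.1
    refine (Set.infinite_range_of_injective hinj).mono ?_
    rintro _ ⟨n, rfl⟩ ⟨⟨k, ⟨m, b⟩, c⟩, hm⟩
    have : ((k, J k, m, b, c) : ℕ × ℕ × ℕ × Bool × Bool) =
        (n, J n + 1, 0, false, false) := sinj hm
    simp only [Prod.mk.injEq] at this
    obtain ⟨rfl, h2, _⟩ := this
    omega
  · apply via_unique
    · rintro ⟨⟨n, b⟩, c⟩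
      rw [flipI_apply]
      show x k (y ((x k)⁻¹ (y⁻¹ (s (k, J k, n, b, c))))) = s (k, J k, n, b, !c)
      cases b
      · rw [Y1', F1', Y2, F1]
        · rfl
        · intro l n' c'
          exact tne _ _ _ _ _ _ _
      · rw [Y2', F1', Bool.not_true, Y1, F1]
        · rfl
        · intro l n' c'
          exact tne _ _ _ _ _ _ _
    · intro p hp
      have hp' : ∀ n b c, p ≠ s (k, J k, n, b, c) := fun n b c hc => hp ⟨((n, b), c), hc.symm⟩
      show x k (y ((x k)⁻¹ (y⁻¹ p))) = p
      by_cases c1 : ∃ l n c, p = s (l, J l, n, false, c)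
      · obtain ⟨l, n, c, rfl⟩ := c1
        have hlk : l ≠ k := by
          rintro rfl
          exact hp' _ _ _ rfl
        rw [Y1', F2'' k _ hlk, Y1, Bool.not_not, F2' k _ hlk]
      · push Not at c1
        rw [Y2' p c1, Y2, pself_inv]
        intro l n c hc
        rw [Perm.inv_eq_iff_eq] at hc
        by_cases hlk : l = k
        · subst hlk
          rw [F1] at hc
          exact hp' _ _ _ hc
        · rw [F2' k _ hlk] at hc
          exact c1 _ _ _ hc

end Q17.SymTop
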