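import Pool.Agent.Q17.SymTop.CaseB

open Equiv Equiv.Perm Filter Topology Function

namespace Q17.SymTop

variable {α : Type*} {X Y Z : Type*}

variable [TopologicalSpace (Perm α)] [IsTopologicalGroup (Perm α)]

/-- Step 2: every block sequence is null. -/
theorem vn_all [Countable α] [Infinite α] (hf : VN α (fun _ => flipI (ℕ × Bool)))
    (g : ℕ → Perm ℕ) : VN α g := by
  classical
  let Y := ℤ × ℕ
  obtain ⟨e⟩ := nonempty_equiv_of_countable (α := ℕ × Bool) (β := ℕ × ℕ)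
  let ι : (ℕ × Bool) × Bool ↪ ℤ × ℕ :=
    ⟨fun p => (if p.2 then -1 - ((e p.1).1 : ℤ) else ((e p.1).1 : ℤ), (e p.1).2), by
      rintro ⟨i, b⟩ ⟨j, c⟩ hij
      simp only [Prod.mk.injEq] at hij
      obtain ⟨h1, h2⟩ := hij
      cases b <;> cases c <;> simp only [Bool.false_eq_true, if_true, if_false] at h1
      · have h3 : (e i).1 = (e j).1 := by exact_mod_cast h1
        rw [e.injective (Prod.ext h3 h2)]
      · omega
      · omega
      · have h3 : (e i).1 = (e j).1 := by omega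
        rw [e.injective (Prod.ext h3 h2)]⟩
  have hι0 : ∀ i, ι (i, false) = (((e i).1 : ℤ), (e i).2) := fun i => rfl
  have hι1 : ∀ i, ι (i, true) = (-1 - ((e i).1 : ℤ), (e i).2) := fun i => rfl
  have hι : Surjective ι := by
    rintro ⟨z, a⟩
    by_cases hz : 0 ≤ z
    · refine ⟨(e.symm (z.toNat, a), false), ?_⟩
      rw [hι0]
      simp [hz]
    · refine ⟨(e.symm ((-1 - z).toNat, a), true), ?_⟩
      have : (((-1 - z).toNat : ℕ) : ℤ) = -1 - z := Int.toNat_of_nonneg (by omega)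
      rw [hι1, Equiv.apply_symm_apply, this]
      simp
  let r : Perm (ℤ × ℕ) := Function.Involutive.toPerm (fun p => (-1 - p.1, p.2)) (by
    rintro ⟨z, a⟩
    simp)
  let σ : Perm (ℤ × ℕ) := Equiv.prodCongr (Equiv.addRight 1) (Equiv.refl ℕ)
  have hr : VN α (fun _ => r) := by
    have := hf.via ι
    convert this using 2
    apply via_unique
    · rintro ⟨i, b⟩
      show (-1 - (ι (i, b)).1, (ι (i, b)).2) = ι (i, !b)
      cases b
      · rw [hι0, Bool.not_false, hι1]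
      · rw [hι1, Bool.not_true, hι0]
        simp
    · intro y hy
      exact absurd (hι y) hy
  let t : Perm (ℤ × ℕ) := r * (σ * r * σ⁻¹)
  have ht : VN α (fun _ => t) := hr.mul (hr.conj fun _ => σ)
  have htapp : ∀ z a, t (z, a) = (z - 2, a) := by
    intro z a
    have h1 : σ⁻¹ (z, a) = (z - 1, a) := by
      rw [Perm.inv_eq_iff_eq]
      show _ = (z - 1 + 1, a)
      simp
    show r (σ (r (σ⁻¹ (z, a)))) = _
    rw [h1]
    show (-1 - (-1 - (z - 1) + 1), a) = _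
    congr 1
    ring
  have htinv : ∀ z a, t⁻¹ (z, a) = (z + 2, a) := by
    intro z a
    rw [Perm.inv_eq_iff_eq, htapp]
    simp
  let x : ℕ → Perm (ℤ × ℕ) := fun n =>
    { toFun := fun p => if p.1 ≤ 0 ∧ p.1 % 2 = 0 then (p.1, g n p.2) else p
      invFun := fun p => if p.1 ≤ 0 ∧ p.1 % 2 = 0 then (p.1, (g n)⁻¹ p.2) else p
      left_inv := by
        rintro ⟨z, a⟩
        by_cases hz : z ≤ 0 ∧ z % 2 = 0
        · dsimp only
          rw [if_pos hz]
          dsimp only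
          rw [if_pos hz, pinv_self]
        · dsimp only
          rw [if_neg hz]
          exact if_neg hz
      right_inv := by
        rintro ⟨z, a⟩
        by_cases hz : z ≤ 0 ∧ z % 2 = 0
        · dsimp only
          rw [if_pos hz]
          dsimp only
          rw [if_pos hz, pself_inv]
        · dsimp only
          rw [if_neg hz]
          exact if_neg hz }
  have x1 : ∀ n z a, (z ≤ 0 ∧ z % 2 = 0) → x n (z, a) = (z, g n a) := by
    intro n z a hz
    show (if z ≤ 0 ∧ z % 2 = 0 then _ else _) = _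
    rw [if_pos hz]
  have x2 : ∀ n z a, ¬ (z ≤ 0 ∧ z % 2 = 0) → x n (z, a) = (z, a) := by
    intro n z a hz
    show (if z ≤ 0 ∧ z % 2 = 0 then _ else _) = _
    rw [if_neg hz]
  have x1' : ∀ n z a, (z ≤ 0 ∧ z % 2 = 0) → (x n)⁻¹ (z, a) = (z, (g n)⁻¹ a) := by
    intro n z a hz
    rw [Perm.inv_eq_iff_eq, x1 n z _ hz, pself_inv]
  have x2' : ∀ n z a, ¬ (z ≤ 0 ∧ z % 2 = 0) → (x n)⁻¹ (z, a) = (z, a) := by
    intro n z a hz
    rw [Perm.inv_eq_iff_eq, x2 n z _ hz]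
  have hc := ht.comm x
  let ι0 : ℕ ↪ ℤ × ℕ := ⟨fun a => (0, a), fun a b hab => by simpa using hab⟩
  refine VN.of_via ι0 ?_
  convert hc using 2 with n
  symm
  apply via_unique
  · intro a
    show x n (t ((x n)⁻¹ (t⁻¹ (0, a)))) = (0, g n a)
    rw [htinv, x2' _ _ _ (by norm_num), htapp, x1 _ _ _ (by norm_num)]
    simp
  · rintro ⟨z, a⟩ hza
    have hz : z ≠ 0 := by
      rintro rfl
      exact hza ⟨a, rfl⟩
    show x n (t ((x n)⁻¹ (t⁻¹ (z, a)))) = (z, a)
    rw [htinv]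
    by_cases h1 : z + 2 ≤ 0 ∧ (z + 2) % 2 = 0
    · rw [x1' _ _ _ h1, htapp, x1 _ _ _ (by omega), pself_inv]
      simp
    · rw [x2' _ _ _ h1, htapp, x2 _ _ _ (by omega)]
      simp

omit [IsTopologicalGroup (Perm α)] in
/-- Step 3 -/
theorem exists_small [Countable α] [Infinite α] (hv : ∀ g : ℕ → Perm ℕ, VN α g)
    {A : Set α} (hA : A.Infinite) {U : Set (Perm α)} (hU : U ∈ 𝓝 (1 : Perm α)) :
    ∃ A' : Set α, A' ⊆ A ∧ A'.Infinite ∧ ∀ g : Perm α, SuppIn g A' → g ∈ U := by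
  by_contra hcon
  push Not at hcon
  have := hA.to_subtype
  obtain ⟨θ0, hθ0⟩ := exists_coinf (Y := ℕ × ℕ) (α := A)
  let θ : ℕ × ℕ ↪ α := θ0.trans (Embedding.subtype _)
  have hθ : (Set.range θ)ᶜ.Infinite := by
    have : (Subtype.val '' ((Set.range θ0)ᶜ : Set A)).Infinite :=
      hθ0.image Subtype.val_injective.injOn
    refine this.mono ?_
    rintro _ ⟨b, hb, rfl⟩ ⟨y, hy⟩
    exact hb ⟨y, Subtype.ext hy⟩
  have h1 : ∀ n, ∃ p : Perm ℕ, via (sec θ n) p ∉ U := by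
    intro n
    obtain ⟨g, hg1, hg2⟩ := hcon (Set.range (sec θ n)) (by
      rintro _ ⟨y, rfl⟩
      exact (θ0 (n, y)).2) (Set.infinite_range_of_injective (sec θ n).injective)
    obtain ⟨p, rfl⟩ := exists_via (sec θ n) g hg1
    exact ⟨p, hg2⟩
  choose p hp using h1
  obtain ⟨n, hn⟩ := ((hv p θ hθ).eventually hU).exists
  exact hp n hn

omit [IsTopologicalGroup (Perm α)] in
/-- Step 4: diagonalisation -/
theorem exists_diag [Countable α] [Infinite α] [(𝓝 (1 : Perm α)).IsCountablyGenerated]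
    (hv : ∀ g : ℕ → Perm ℕ, VN α g) :
    ∃ m : ℕ ↪ α, (Set.range m)ᶜ.Infinite ∧ ∀ U ∈ 𝓝 (1 : Perm α), ∃ N : ℕ, ∀ g : Perm α,
      SuppIn g (m '' {i | N ≤ i}) → g ∈ U := by
  classical
  obtain ⟨U, hU⟩ := (𝓝 (1 : Perm α)).exists_antitone_basis
  obtain ⟨θ, hθ⟩ := exists_coinf (Y := ℕ) (α := α)
  have step : ∀ (i : ℕ) (A : {A : Set α // A.Infinite}), ∃ A' : {A : Set α // A.Infinite},
      A'.1 ⊆ A.1 ∧ ∀ g : Perm α, SuppIn g A'.1 → g ∈ U i := by
    intro i A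
    obtain ⟨A', h1, h2, h3⟩ := exists_small hv A.2 (hU.mem i)
    exact ⟨⟨A', h2⟩, h1, h3⟩
  choose F hF1 hF2 using step
  let A : ℕ → {A : Set α // A.Infinite} := fun n =>
    Nat.rec ⟨Set.range θ, Set.infinite_range_of_injective θ.injective⟩ (fun i A => F i A) n
  have hA0 : (A 0).1 = Set.range θ := rfl
  have hAs : ∀ n, A (n + 1) = F n (A n) := fun n => rfl
  have hanti : Antitone (fun n => (A n).1) := antitone_nat_of_succ_le fun n => by
    show (A (n + 1)).1 ⊆ (A n).1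
    rw [hAs]
    exact hF1 _ _
  obtain ⟨s, hs1, hs2⟩ := greedy (fun n => (A (n + 1)).1) (fun p => {p}) (fun n => (A (n + 1)).2)
    (fun p => Set.finite_singleton p)
  have sinj : Injective s := by
    intro i j hij
    by_contra hne
    rcases lt_or_gt_of_ne hne with h | h
    · exact hs2 _ _ h hij.symm
    · exact hs2 _ _ h hij
  refine ⟨⟨s, sinj⟩, ?_, ?_⟩
  · refine hθ.mono ?_
    rintro x hx ⟨i, rfl⟩
    apply hx
    rw [← hA0]
    have h1 := hanti (Nat.zero_le (i + 1))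
    exact h1 (hs1 i)
  · intro V hV
    obtain ⟨n, -, hn⟩ := hU.1.mem_iff.1 hV
    refine ⟨n, fun g hg => hn ?_⟩
    apply hF2 n (A n)
    rw [← hAs]
    refine hg.mono ?_
    rintro _ ⟨i, hi, rfl⟩
    have hi' : n + 1 ≤ i + 1 := Nat.succ_le_succ hi
    have h1 := hanti hi'
    exact h1 (hs1 i)

theorem small_of_coinf [Countable α] [Infinite α] [(𝓝 (1 : Perm α)).IsCountablyGenerated]
    (hv : ∀ g : ℕ → Perm ℕ, VN α g) {W : Set α} (hW : W.Infinite) (hW' : Wᶜ.Infinite)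
    {U : Set (Perm α)} (hU : U ∈ 𝓝 (1 : Perm α)) :
    ∃ F : Set α, F.Finite ∧ ∀ g : Perm α, SuppIn g (W \ F) → g ∈ U := by
  obtain ⟨m, hm, hmU⟩ := exists_diag hv
  have := hW.to_subtype
  obtain ⟨e⟩ := nonempty_equiv_of_countable (α := ℕ) (β := W)
  let ψ : ℕ ↪ α := e.toEmbedding.trans (Embedding.subtype _)
  have hψ : Set.range ψ = W := by
    ext x
    constructor
    · rintro ⟨i, rfl⟩
      exact (e i).2
    · intro hx
      exact ⟨e.symm ⟨x, hx⟩, by simp [ψ]⟩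
  obtain ⟨c, hc⟩ := exists_perm_comp m.injective ψ.injective hm (by rw [hψ]; exact hW')
  have hV : {u : Perm α | c * u * c⁻¹ ∈ U} ∈ 𝓝 (1 : Perm α) := by
    have h1 : Tendsto (fun u : Perm α => c * u * c⁻¹) (𝓝 1) (𝓝 1) := by
      have : Continuous (fun u : Perm α => c * u * c⁻¹) := by fun_prop
      have h2 := this.tendsto 1
      simpa using h2
    exact h1 hU
  obtain ⟨N, hN⟩ := hmU _ hV
  refine ⟨ψ '' {i | i < N}, (Set.finite_lt_nat N).image _, fun g hg => ?_⟩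
  have h2 : SuppIn (c⁻¹ * g * c) (m '' {i | N ≤ i}) := by
    intro x hx
    rw [Perm.mul_apply, Perm.mul_apply, hg, pinv_self]
    rintro ⟨h3, h4⟩
    rw [← hψ] at h3
    obtain ⟨i, hi⟩ := h3
    rw [← hc i] at hi
    have h5 := c.injective hi
    apply hx
    refine ⟨i, ?_, h5⟩
    show N ≤ i
    by_contra hlt
    apply h4
    refine ⟨i, not_le.1 hlt, ?_⟩
    rw [← hc i, h5]
  have h3 := hN _ h2
  have h4 : c * (c⁻¹ * g * c) * c⁻¹ = g := by group
  change c * (c⁻¹ * g * c) * c⁻¹ ∈ U at h3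
  rwa [h4] at h3

/-- Case B -/
theorem caseB [Countable α] [Infinite α] [T2Space (Perm α)]
    [(𝓝 (1 : Perm α)).IsCountablyGenerated]
    (hc : ∀ V ∈ 𝓝 (1 : Perm α), ∃ g ∈ V, {x | g x ≠ x}.Infinite)
    {U : Set (Perm α)} (hU : U ∈ 𝓝 (1 : Perm α)) :
    ∃ F : Finset α, ∀ g : Perm α, (∀ x ∈ F, g x = x) → g ∈ U := by
  classical
  obtain ⟨V, hV⟩ := (𝓝 (1 : Perm α)).exists_antitone_basis
  choose h hh1 hh2 using fun n => hc (V n) (hV.mem n)
  have hv := vn_all (vn_flip (hV.tendsto hh1) hh2)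
  obtain ⟨V1, hV1, hV1'⟩ := exists_nhds_one_split hU
  obtain ⟨V2, hV2, hV2'⟩ := exists_nhds_one_split hV1
  obtain ⟨e⟩ := nonempty_equiv_of_countable (α := ℕ × Fin 3) (β := α)
  let P : Fin 3 → Set α := fun i => Set.range (fun n : ℕ => e (n, i))
  have hP : ∀ i, (P i).Infinite := fun i => Set.infinite_range_of_injective fun m n hmn => by
    have := e.injective hmn
    simpa using this
  have hPd : ∀ i j, i ≠ j → Disjoint (P i) (P j) := by
    intro i j hij
    rw [Set.disjoint_left]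
    rintro _ ⟨n, rfl⟩ ⟨m, hm⟩
    have := e.injective hm
    simp only [Prod.mk.injEq] at this
    exact hij this.2.symm
  have hPc : ∀ x, x ∈ P 0 ∪ P 1 ∪ P 2 := by
    intro x
    obtain ⟨⟨n, i⟩, rfl⟩ := e.surjective x
    fin_cases i
    · exact Or.inl (Or.inl ⟨n, rfl⟩)
    · exact Or.inl (Or.inr ⟨n, rfl⟩)
    · exact Or.inr ⟨n, rfl⟩
  obtain ⟨F1, hF1, hF1'⟩ := small_of_coinf hv (W := P 0 ∪ P 1) ((hP 0).mono Set.subset_union_left)
    ((hP 2).mono (by
      rintro x hx (h | h)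
      · exact Set.disjoint_left.1 (hPd 0 2 (by decide)) h hx
      · exact Set.disjoint_left.1 (hPd 1 2 (by decide)) h hx)) hV2
  obtain ⟨F2, hF2, hF2'⟩ := small_of_coinf hv (W := P 1 ∪ P 2) ((hP 1).mono Set.subset_union_left)
    ((hP 0).mono (by
      rintro x hx (h | h)
      · exact Set.disjoint_left.1 (hPd 1 0 (by decide)) h hx
      · exact Set.disjoint_left.1 (hPd 2 0 (by decide)) h hx)) hV2
  let F := F1 ∪ F2
  have hF : F.Finite := hF1.union hF2
  refine ⟨hF.toFinset, fun g hg => ?_⟩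
  have hgF : ∀ x ∈ F, g x = x := fun x hx => hg x (hF.mem_toFinset.2 hx)
  obtain ⟨s1, s2, s3, s4, h1, h2, h3, h4, rfl⟩ := dec (A := P 0 \ F) (B := P 1 \ F) (C := P 2 \ F)
    ((hP 0).sdiff hF) ((hP 1).sdiff hF)
    ((hPd 0 1 (by decide)).mono Set.sdiff_subset Set.sdiff_subset)
    ((hPd 0 2 (by decide)).mono Set.sdiff_subset Set.sdiff_subset) (g := g) (by
      intro x hx
      apply hgF
      by_contra hxF
      apply hx
      rcases hPc x with (h | h) | h
      · exact Or.inl (Or.inl ⟨h, hxF⟩)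
      · exact Or.inl (Or.inr ⟨h, hxF⟩)
      · exact Or.inr ⟨h, hxF⟩)
  have k1 : ∀ s, SuppIn s (P 0 \ F ∪ P 1 \ F) → s ∈ V2 := by
    intro s hs
    apply hF1'
    refine hs.mono ?_
    rintro x (⟨h, h'⟩ | ⟨h, h'⟩)
    · exact ⟨Or.inl h, fun hc => h' (Or.inl hc)⟩
    · exact ⟨Or.inr h, fun hc => h' (Or.inl hc)⟩
  have k2 : ∀ s, SuppIn s (P 1 \ F ∪ P 2 \ F) → s ∈ V2 := by
    intro s hs
    apply hF2'
    refine hs.mono ?_
    rintro x (⟨h, h'⟩ | ⟨h, h'⟩)
    · exact ⟨Or.inl h, fun hc => h' (Or.inr hc)⟩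
    · exact ⟨Or.inr h, fun hc => h' (Or.inr hc)⟩
  have h12 := hV2' s1 (k1 s1 h1) s2 (k2 s2 h2)
  have h34 := hV2' s3 (k1 s3 h3) s4 (k2 s4 h4)
  have := hV1' _ h12 _ h34
  rwa [← mul_assoc] at this

end Q17.SymTop
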