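import Pool.Agent.Q17.SymTop.Null

open Equiv Equiv.Perm Filter Topology Function

namespace Q17.SymTop

variable {α : Type*} {X Y Z : Type*}

theorem dec1 [Countable α] {A B C : Set α} (hB : B.Infinite)
    (hAB : Disjoint A B) (hAC : Disjoint A C) {g : Perm α}
    (hg : SuppIn g (A ∪ B ∪ C)) (hi : ((B ∪ C) \ g '' A).Infinite) :
    ∃ s2 s3 s4 : Perm α, SuppIn s2 (B ∪ C) ∧ SuppIn s3 (A ∪ B) ∧ SuppIn s4 (B ∪ C) ∧
      g = s2 * s3 * s4 := by
  classical
  let T2 : Set α := g '' A ∩ (B ∪ C)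
  have := hB.to_subtype
  obtain ⟨θ, hθ⟩ := exists_coinf (Y := T2) (α := B)
  let f : α → α := fun x => if h : x ∈ T2 then (θ ⟨x, h⟩ : α) else x
  have hf : ∀ x (h : x ∈ T2), f x = θ ⟨x, h⟩ := fun x h => by simp only [f, dif_pos h]
  have hfB : ∀ x ∈ T2, f x ∈ B := fun x h => by
    rw [hf x h]
    exact (θ ⟨x, h⟩).2
  have hBf : (B \ f '' T2).Infinite := by
    have : (Subtype.val '' ((Set.range θ)ᶜ : Set B)).Infinite :=
      hθ.image Subtype.val_injective.injOn
    refine this.mono ?_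
    rintro _ ⟨b, hb, rfl⟩
    refine ⟨b.2, ?_⟩
    rintro ⟨x, hx, hxb⟩
    apply hb
    rw [hf x hx] at hxb
    exact ⟨_, Subtype.ext hxb⟩
  obtain ⟨s2, hs2, hs2'⟩ := exists_perm_suppIn (W := B ∪ C) (T := T2) (f := f)
    Set.inter_subset_right (by
      intro x hx y hy hxy
      rw [hf x hx, hf y hy] at hxy
      have := θ.injective (Subtype.ext hxy)
      exact congrArg Subtype.val this) (fun x hx => Or.inl (hfB x hx)) (by
      refine hi.mono ?_
      rintro x ⟨hx, hx'⟩
      exact ⟨hx, fun h => hx' h.1⟩) (by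
      refine hBf.mono ?_
      rintro x ⟨hx, hx'⟩
      exact ⟨Or.inl hx, hx'⟩)
  have hAnot : ∀ a ∈ A, a ∉ B ∪ C := by
    rintro a ha (h | h)
    · exact Set.disjoint_left.1 hAB ha h
    · exact Set.disjoint_left.1 hAC ha h
  have hq : ∀ a ∈ A, (s2 * g) a ∈ A ∪ B := by
    intro a ha
    rw [Perm.mul_apply]
    have h1 : g a ∈ A ∪ B ∪ C := hg.mem (Or.inl (Or.inl ha))
    by_cases h2 : g a ∈ A
    · rw [hs2 _ (hAnot _ h2)]
      exact Or.inl h2
    · have h3 : g a ∈ B ∪ C := by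
        rcases h1 with (h | h) | h
        · exact absurd h h2
        · exact Or.inl h
        · exact Or.inr h
      have h4 : g a ∈ T2 := ⟨⟨a, ha, rfl⟩, h3⟩
      rw [hs2' _ h4]
      exact Or.inr (hfB _ h4)
  obtain ⟨s3, hs3, hs3'⟩ := exists_perm_suppIn (W := A ∪ B) (T := (s2 * g) '' A)
    (f := ⇑((s2 * g)⁻¹)) (by
      rintro _ ⟨a, ha, rfl⟩
      exact hq a ha) ((s2 * g)⁻¹.injective.injOn) (by
      rintro _ ⟨a, ha, rfl⟩
      rw [pinv_self]
      exact Or.inl ha) (by
      refine hBf.mono ?_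
      rintro b ⟨hb, hb'⟩
      refine ⟨Or.inr hb, ?_⟩
      rintro ⟨a, ha, hab⟩
      rw [Perm.mul_apply] at hab
      by_cases h2 : g a ∈ A
      · rw [hs2 _ (hAnot _ h2)] at hab
        rw [hab] at h2
        exact Set.disjoint_left.1 hAB h2 hb
      · have h3 : g a ∈ B ∪ C := by
          rcases hg.mem (Or.inl (Or.inl ha) : a ∈ A ∪ B ∪ C) with (h | h) | h
          · exact absurd h h2
          · exact Or.inl h
          · exact Or.inr h
        have h4 : g a ∈ T2 := ⟨⟨a, ha, rfl⟩, h3⟩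
        rw [hs2' _ h4] at hab
        exact hb' ⟨g a, h4, hab⟩) (by
      refine hB.mono ?_
      intro b hb
      refine ⟨Or.inr hb, ?_⟩
      rintro ⟨_, ⟨a, ha, rfl⟩, hab⟩
      rw [pinv_self] at hab
      subst hab
      exact Set.disjoint_left.1 hAB ha hb)
  refine ⟨s2⁻¹, s3⁻¹, s3 * s2 * g, hs2.inv, hs3.inv, ?_, ?_⟩
  · intro x hx
    by_cases hxA : x ∈ A
    · have := hs3' _ ⟨x, hxA, rfl⟩
      rw [pinv_self] at this
      rw [mul_assoc, Perm.mul_apply, this]
    · have h1 : x ∉ A ∪ B ∪ C := by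
        rintro ((h | h) | h)
        · exact hxA h
        · exact hx (Or.inl h)
        · exact hx (Or.inr h)
      rw [Perm.mul_apply, Perm.mul_apply, hg x h1, hs2 x hx, hs3 x]
      rintro (h | h)
      · exact hxA h
      · exact hx (Or.inl h)
  · group

theorem dec [Countable α] {A B C : Set α} (hA : A.Infinite) (hB : B.Infinite)
    (hAB : Disjoint A B) (hAC : Disjoint A C) {g : Perm α} (hg : SuppIn g (A ∪ B ∪ C)) :
    ∃ s1 s2 s3 s4 : Perm α, SuppIn s1 (A ∪ B) ∧ SuppIn s2 (B ∪ C) ∧ SuppIn s3 (A ∪ B) ∧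
      SuppIn s4 (B ∪ C) ∧ g = s1 * s2 * s3 * s4 := by
  classical
  by_cases hi : ((B ∪ C) \ g '' A).Infinite
  · obtain ⟨s2, s3, s4, h2, h3, h4, h⟩ := dec1 hB hAB hAC hg hi
    exact ⟨1, s2, s3, s4, fun x _ => rfl, h2, h3, h4, by rw [h]; group⟩
  · rw [Set.not_infinite] at hi
    have hAi : (A \ g '' A).Infinite := by
      intro hfin
      have h1 : (g '' B).Infinite := hB.image g.injective.injOn
      apply h1
      refine (hi.union hfin).subset ?_
      rintro _ ⟨b, hb, rfl⟩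
      have hn : g b ∉ g '' A := by
        rintro ⟨a, ha, hab⟩
        have := g.injective hab
        subst this
        exact Set.disjoint_left.1 hAB ha hb
      rcases hg.mem (Or.inl (Or.inr hb) : b ∈ A ∪ B ∪ C) with (h | h) | h
      · exact Or.inr ⟨h, hn⟩
      · exact Or.inl ⟨Or.inl h, hn⟩
      · exact Or.inl ⟨Or.inr h, hn⟩
    have := hA.to_subtype
    have := hB.to_subtype
    obtain ⟨e⟩ := nonempty_equiv_of_countable (α := A) (β := B)
    let f : α → α := fun x => if h : x ∈ A then (e ⟨x, h⟩ : α) else x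
    have hf : ∀ x (h : x ∈ A), f x = e ⟨x, h⟩ := fun x h => by simp only [f, dif_pos h]
    have hfB : ∀ x ∈ A, f x ∈ B := fun x h => by
      rw [hf x h]
      exact (e ⟨x, h⟩).2
    obtain ⟨s1, hs1, hs1'⟩ := exists_perm_suppIn (W := A ∪ B) (T := A) (f := f)
      Set.subset_union_left (by
        intro x hx y hy hxy
        rw [hf x hx, hf y hy] at hxy
        have := e.injective (Subtype.ext hxy)
        exact congrArg Subtype.val this) (fun x hx => Or.inr (hfB x hx)) (by
        refine hB.mono ?_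
        intro b hb
        exact ⟨Or.inr hb, fun ha => Set.disjoint_left.1 hAB ha hb⟩) (by
        refine hA.mono ?_
        intro a ha
        refine ⟨Or.inl ha, ?_⟩
        rintro ⟨x, hx, hxa⟩
        have := hfB x hx
        rw [hxa] at this
        exact Set.disjoint_left.1 hAB ha this)
    have hs1W : SuppIn s1 (A ∪ B ∪ C) := hs1.mono Set.subset_union_left
    obtain ⟨s2, s3, s4, h2, h3, h4, h⟩ := dec1 (g := s1 * g) hB hAB hAC (hs1W.mul hg) (by
      have h1 : (s1 '' (A \ g '' A)).Infinite := hAi.image s1.injective.injOn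
      refine h1.mono ?_
      rintro _ ⟨a, ⟨ha, ha'⟩, rfl⟩
      refine ⟨Or.inl ?_, ?_⟩
      · rw [hs1' a ha]
        exact hfB a ha
      · rintro ⟨b, hb, hab⟩
        rw [Perm.mul_apply] at hab
        exact ha' ⟨b, hb, s1.injective hab⟩)
    exact ⟨s1⁻¹, s2, s3, s4, hs1.inv, h2, h3, h4, by
      rw [mul_assoc, mul_assoc, ← mul_assoc s2, ← h, inv_mul_cancel_left]⟩

end Q17.SymTop
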