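import Pool.Agent.Q17.SymTop.Basic

open Equiv Equiv.Perm Filter Topology Function

namespace Q17.SymTop

variable {α : Type*} {X Y : Type*}

theorem swap_comm' [DecidableEq α] {a b c d : α} (h1 : a ≠ c) (h2 : a ≠ d) (h3 : b ≠ c)
    (h4 : b ≠ d) : swap a b * swap c d = swap c d * swap a b := by
  ext z
  simp only [Perm.mul_apply]
  by_cases hza : z = a
  · subst hza
    rw [swap_apply_of_ne_of_ne h1 h2, swap_apply_left, swap_apply_of_ne_of_ne h3 h4]
  by_cases hzb : z = b
  · subst hzb
    rw [swap_apply_of_ne_of_ne h3 h4, swap_apply_right, swap_apply_of_ne_of_ne h1 h2]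
  rw [swap_apply_of_ne_of_ne hza hzb]
  by_cases hzc : z = c
  · subst hzc
    rw [swap_apply_left, swap_apply_of_ne_of_ne h2.symm h4.symm]
  by_cases hzd : z = d
  · subst hzd
    rw [swap_apply_right, swap_apply_of_ne_of_ne h1.symm h3.symm]
  rw [swap_apply_of_ne_of_ne hzc hzd, swap_apply_of_ne_of_ne hza hzb]

variable [TopologicalSpace (Perm α)] [IsTopologicalGroup (Perm α)]

/-- Gaughan: point stabilisers are neighbourhoods of the identity -/
theorem stab_mem_nhds [T2Space (Perm α)] [Infinite α] (x : α) :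
    {g : Perm α | g x = x} ∈ 𝓝 (1 : Perm α) := by
  classical
  have : Infinite {z : α // z ≠ x} := by
    have : ({x}ᶜ : Set α).Infinite := (Set.finite_singleton x).infinite_compl
    exact this.to_subtype
  let y : ℕ ↪ {z : α // z ≠ x} := Infinite.natEmbedding _
  have hyx : ∀ i, (y i : α) ≠ x := fun i => (y i).2
  have hyy : ∀ i j, i ≠ j → (y i : α) ≠ y j := fun i j hij h => hij (y.injective (Subtype.ext h))
  let O : ℕ → ℕ → Set (Perm α) := fun i j =>
    {h | h * swap x (y i) * h⁻¹ * swap x (y j) ≠ swap x (y j) * (h * swap x (y i) * h⁻¹)}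
  have hO : ∀ i j, i ≠ j → O i j ∈ 𝓝 (1 : Perm α) := by
    intro i j hij
    have ho : IsOpen (O i j) := isOpen_ne_fun (by fun_prop) (by fun_prop)
    refine ho.mem_nhds ?_
    intro h
    simp only [one_mul, mul_one, inv_one] at h
    have := congrArg (fun g : Perm α => g x) h
    simp only [Perm.mul_apply, swap_apply_left] at this
    rw [swap_apply_of_ne_of_ne (hyx j) (hyy j i hij.symm),
      swap_apply_of_ne_of_ne (hyx i) (hyy i j hij)] at this
    exact hyy i j hij this.symm
  have key : ∀ h : Perm α, ∀ i j, h ∈ O i j → h x ≠ x → h x ≠ y j →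
      h (y i) = x ∨ h (y i) = y j := by
    intro h i j hO h1 h2
    by_contra hc
    push Not at hc
    apply hO
    rw [← swap_apply_apply]
    exact swap_comm' h1 h2 hc.1 hc.2
  have hall : O 0 3 ∩ O 1 3 ∩ O 2 3 ∩ (O 0 4 ∩ O 1 4 ∩ O 2 4) ∈ 𝓝 (1 : Perm α) := by
    refine inter_mem (inter_mem (inter_mem ?_ ?_) ?_) (inter_mem (inter_mem ?_ ?_) ?_) <;>
    exact hO _ _ (by norm_num)
  refine mem_of_superset hall ?_
  rintro h ⟨⟨⟨h03, h13⟩, h23⟩, ⟨h04, h14⟩, h24⟩
  show h x = x
  by_contra hx
  have inj : ∀ i j, i ≠ j → h (y i) ≠ h (y j) := fun i j hij he => hyy i j hij (h.injective he)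
  have i01 := inj 0 1 (by norm_num)
  have i02 := inj 0 2 (by norm_num)
  have i12 := inj 1 2 (by norm_num)
  by_cases h3 : h x = y 3
  · have h4 : h x ≠ y 4 := by
      rw [h3]
      exact hyy 3 4 (by norm_num)
    rcases key h 0 4 h04 hx h4 with e0 | e0 <;> rcases key h 1 4 h14 hx h4 with e1 | e1 <;>
    rcases key h 2 4 h24 hx h4 with e2 | e2 <;> simp_all
  · rcases key h 0 3 h03 hx h3 with e0 | e0 <;> rcases key h 1 3 h13 hx h3 with e1 | e1 <;>
    rcases key h 2 3 h23 hx h3 with e2 | e2 <;> simp_all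

/-- pointwise stabilisers of finite sets are neighbourhoods of the identity -/
theorem stabF_mem_nhds [T2Space (Perm α)] [Infinite α] (F : Finset α) :
    {g : Perm α | ∀ x ∈ F, g x = x} ∈ 𝓝 (1 : Perm α) := by
  classical
  have : {g : Perm α | ∀ x ∈ F, g x = x} = ⋂ x ∈ F, {g : Perm α | g x = x} := by
    ext g
    simp
  rw [this, Filter.biInter_finset_mem]
  intro x _
  exact stab_mem_nhds x

/-- a sequence of permutations converging to the identity is pointwise eventually trivial -/
theorem eventually_fix [T2Space (Perm α)] [Infinite α] {h : ℕ → Perm α}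
    (hh : Tendsto h atTop (𝓝 1)) (x : α) : ∀ᶠ n in atTop, h n x = x :=
  hh (stab_mem_nhds x)

end Q17.SymTop
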