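import Pool.Agent.Q17.SymTop.Gaughan

open Equiv Equiv.Perm Filter Topology Function

namespace Q17.SymTop

variable {α : Type*} {X Y Z : Type*}

theorem via_via (ι : X ↪ Y) (θ : Y ↪ α) (p : Perm X) : via θ (via ι p) = via (ι.trans θ) p := by
  apply via_unique
  · intro x
    simp only [Embedding.trans_apply]
    rw [via_apply, via_apply]
  · intro y hy
    by_cases hy' : y ∈ Set.range θ
    · obtain ⟨z, rfl⟩ := hy'
      rw [via_apply, via_apply_not]
      rintro ⟨x, rfl⟩
      exact hy ⟨x, rfl⟩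
    · exact via_apply_not _ _ hy'

/-- the `n`-th section of an embedding of `ℕ × Y` -/
def sec (θ : ℕ × Y ↪ α) (n : ℕ) : Y ↪ α :=
  ⟨fun y => θ (n, y), fun y z h => by
    have := θ.injective h
    simpa using this⟩

@[simp] theorem sec_apply (θ : ℕ × Y ↪ α) (n : ℕ) (y : Y) : sec θ n y = θ (n, y) := rfl

theorem exists_coinf [Countable Y] [Infinite α] : ∃ θ : Y ↪ α, (Set.range θ)ᶜ.Infinite := by
  obtain ⟨f, hf⟩ := exists_injective_nat Y
  let e : ℕ ↪ α := Infinite.natEmbedding α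
  refine ⟨⟨fun y => e (2 * f y), fun y z h => ?_⟩, ?_⟩
  · have := e.injective h
    apply hf
    omega
  · have hinj : Injective (fun n : ℕ => e (2 * n + 1)) := fun m n h => by
      have := e.injective h
      omega
    refine (Set.infinite_range_of_injective hinj).mono ?_
    rintro _ ⟨n, rfl⟩ ⟨y, hy⟩
    have := e.injective hy
    omega

/-- the product of an embedding with the identity of `ℕ` -/
def idProd (ι : Y ↪ Z) : ℕ × Y ↪ ℕ × Z :=
  ⟨fun p => (p.1, ι p.2), fun p q h => by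
    simp only [Prod.mk.injEq] at h
    exact Prod.ext h.1 (ι.injective h.2)⟩

@[simp] theorem idProd_apply (ι : Y ↪ Z) (p : ℕ × Y) : idProd ι p = (p.1, ι p.2) := rfl

theorem coinf_trans {ι : X ↪ Y} {θ : Y ↪ α} (h : (Set.range θ)ᶜ.Infinite) :
    (Set.range (ι.trans θ))ᶜ.Infinite := by
  refine h.mono ?_
  intro y hy hy'
  obtain ⟨x, rfl⟩ := hy'
  exact hy ⟨ι x, rfl⟩

/-- block-diagonal permutation of `ℕ × Y` -/
def diag (x : ℕ → Perm Y) : Perm (ℕ × Y) where
  toFun p := (p.1, x p.1 p.2)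
  invFun p := (p.1, (x p.1)⁻¹ p.2)
  left_inv p := by simp
  right_inv p := by simp

variable [TopologicalSpace (Perm α)]

/-- the copies of `g n` on the `n`-th block of any co-infinite system of blocks tend to `1` -/
def VN (α : Type*) [TopologicalSpace (Perm α)] (g : ℕ → Perm Y) : Prop :=
  ∀ θ : ℕ × Y ↪ α, (Set.range θ)ᶜ.Infinite →
    Tendsto (fun n => via (sec θ n) (g n)) atTop (𝓝 (1 : Perm α))

variable [IsTopologicalGroup (Perm α)]

theorem tendsto_conj {h : ℕ → Perm α} (hh : Tendsto h atTop (𝓝 1)) (c : Perm α) :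
    Tendsto (fun n => c * h n * c⁻¹) atTop (𝓝 1) := by
  have := (hh.const_mul c).mul_const c⁻¹
  simpa using this

theorem tendsto_comm {h : ℕ → Perm α} (hh : Tendsto h atTop (𝓝 1)) (c : Perm α) :
    Tendsto (fun n => h n * c * (h n)⁻¹ * c⁻¹) atTop (𝓝 1) := by
  have := ((hh.mul_const c).mul hh.inv).mul_const c⁻¹
  simpa using this

theorem VN.of_exists [Countable α] {g : ℕ → Perm Y} (θ : ℕ × Y ↪ α)
    (hθ : (Set.range θ)ᶜ.Infinite)
    (h : Tendsto (fun n => via (sec θ n) (g n)) atTop (𝓝 (1 : Perm α))) : VN α g := by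
  intro θ' hθ'
  obtain ⟨c, hc⟩ := exists_perm_comp θ.injective θ'.injective hθ hθ'
  have := tendsto_conj h c
  refine this.congr fun n => ?_
  exact conj_via c _ _ _ fun y => hc _

theorem VN.mul {g h : ℕ → Perm Y} (hg : VN α g) (hh : VN α h) : VN α (fun n => g n * h n) := by
  intro θ hθ
  have := (hg θ hθ).mul (hh θ hθ)
  rw [mul_one] at this
  refine this.congr fun n => ?_
  rw [via_mul]

theorem VN.inv {g : ℕ → Perm Y} (hg : VN α g) : VN α (fun n => (g n)⁻¹) := by
  intro θ hθ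
  have := (hg θ hθ).inv
  rw [inv_one] at this
  refine this.congr fun n => ?_
  rw [via_inv]

omit [IsTopologicalGroup (Perm α)] in
theorem VN.one : VN α (fun _ => (1 : Perm Y)) := by
  intro θ hθ
  refine tendsto_const_nhds.congr fun n => ?_
  rw [via_one]

omit [IsTopologicalGroup (Perm α)] in
theorem VN.via {g : ℕ → Perm Y} (hg : VN α g) (ι : Y ↪ Z) : VN α (fun n => via ι (g n)) := by
  intro θ hθ
  have := hg ((idProd ι).trans θ) (coinf_trans hθ)
  refine this.congr fun n => ?_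
  rw [via_via]
  rfl

theorem VN.of_via [Countable α] [Infinite α] [Countable Z] {g : ℕ → Perm Y} (ι : Y ↪ Z)
    (hg : VN α (fun n => Q17.SymTop.via ι (g n))) : VN α g := by
  obtain ⟨θ, hθ⟩ := exists_coinf (Y := ℕ × Z) (α := α)
  refine VN.of_exists ((idProd ι).trans θ) (coinf_trans hθ) ?_
  refine (hg θ hθ).congr fun n => ?_
  rw [via_via]
  rfl

theorem VN.conj {g : ℕ → Perm Y} (hg : VN α g) (x : ℕ → Perm Y) :
    VN α (fun n => x n * g n * (x n)⁻¹) := by
  intro θ hθ
  have := tendsto_conj (hg θ hθ) (Q17.SymTop.via θ (diag x))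
  refine this.congr fun n => ?_
  let ι : Y ↪ Y := (x n).toEmbedding
  have h1 : x n * g n * (x n)⁻¹ = Q17.SymTop.via ι (g n) := by
    apply via_unique
    · intro y
      simp [ι]
    · intro y hy
      exact absurd ⟨(x n)⁻¹ y, pself_inv _ _⟩ hy
  show _ = Q17.SymTop.via (sec θ n) (x n * g n * (x n)⁻¹)
  rw [h1, via_via]
  apply conj_via
  intro y
  rw [sec_apply, via_apply]
  rfl

theorem VN.comm {g : ℕ → Perm Y} (hg : VN α g) (x : ℕ → Perm Y) :
    VN α (fun n => x n * g n * (x n)⁻¹ * (g n)⁻¹) :=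
  (hg.conj x).mul hg.inv

end Q17.SymTop
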